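import Pool.Agent.Q33.FP.Tfae
import Pool.Agent.W619.PQ.Curve

set_option autoImplicit false

/-!
# Notions of hyperbolicity for maps with few terms: they are all equivalent, for all varieties

`k` is an algebraically closed field of characteristic zero, `X` a closed subset of the projective
`n`-space over `k`, given by any number of forms. A curve `C` is given by its function field `K`,
`canDeg k K` is `2 g - 2`, a map from `C` to `X` is a point `x` of `X` over `K`, its degree is the
height `ht k x`.

`TermPt r M S x`: the homogeneous coordinates of `x` are linear combinations with constant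
coefficients of `r` nonzero functions on `C` with orders divisible by `M` at all points outside the
finite set `S` (for instance of `r` `M`-th powers of any functions, with empty `S`, or of `r` units of
the affine curve, the complement of `S`, with any `M`). Every map is of this form for some `r`.

(1) For all `r` and `d` there is ONE constant `A` such that, for all `k`, `n` and all `X` given by
forms of degree at most `d` and all points `x = ∑ u j v j` of `X` over `K`, with vectors `v j` over
`K` and `u j` with orders divisible by some `M ≥ (C(r + d - 1, d) - 1) ^ 2` outside `S`: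
`ht x ≤ A (max (2 g - 2 + |S|) 0 + ht v)`, or `x` is on a nonconstant rational curve
`t ↦ ∑ t ^ (w j) u j v j` in `X`; if there is no rational curve in `X` then the inequality holds for
all these points.

(2) For every `X` the following are equivalent:
  (a) `X` contains no rational curve;
  (b) (algebraic hyperbolicity, for curves with any set `S` of marked points) for every `r` there are
      `A` and `M0` with `deg f ≤ A max (2 g - 2 + |S|) 0` for the maps `f` with `r` terms, `M ≥ M0`;
  (c) (algebraic hyperbolicity) the same for complete curves: `deg f ≤ A g`;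
  (d) (boundedness) for every `r`, for some `M`, on every curve the degrees of the maps with `r` terms
      are bounded;
  (e) the same on some curve;
  (f) (grouplessness) for every `r`, for some `M`, all maps with `r` terms from the projective line
      and from the elliptic curves to `X` are constant.

In particular all groupless and all hyperbolic varieties (all subvarieties of general type) are
algebraically hyperbolic for maps with few terms, with a constant `A` which depends only on the number
of terms and on the degrees of the equations.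
-/

namespace Pool.Agent.Results.MP_6f117a_ag.FewTermMaps

open FF MvPolynomial Pool.Agent.W603.LV Pool.Agent.Q33.FP

/-- `X` is given by forms of degree at most `d`. -/
def Forms {k : Type} [Field k] {n : ℕ} (X : Set (MvPolynomial (Fin (n + 1)) k)) (d : ℕ) : Prop :=
  ∀ f ∈ X, ∃ e, e ≤ d ∧ f.IsHomogeneous e

/-- The height inequality with the constant `A` for the points `∑ u j v j` of `X`, except for the
points with the property `E`; the orders of the `u j` outside `S` are multiples of some
`M ≥ (C(r + d - 1, d) - 1) ^ 2`. -/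
def Inequality {k : Type} [Field k] {n : ℕ} (X : Set (MvPolynomial (Fin (n + 1)) k)) (r d A : ℕ)
    (E : ∀ (K : Type) [Field K] [Algebra k K], (Fin r → Fin (n + 1) → K) → (Fin r → K) → Prop) :
    Prop :=
  ∀ (K : Type) [Field K] [Algebra k K] [IsFF k K] (S : Finset (Place k K)) (M : ℕ)
    (v : Fin r → Fin (n + 1) → K) (u : Fin r → K), 0 < M → ((r + d - 1).choose d - 1) ^ 2 ≤ M →
    Units S M u → pt v u ≠ 0 → (∀ f ∈ X, aeval (pt v u) f = 0) →
    E K v u ∨ ht k (pt v u) ≤ A * (max (canDeg k K + S.card) 0 + vht k v)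

/-- All points with `r` terms over `K`, with the exponent `M` and with `S`, on `X` have height at most
`B`. -/
def HeightLe {k : Type} [Field k] {n : ℕ} (X : Set (MvPolynomial (Fin (n + 1)) k)) (r M : ℕ)
    {K : Type} [Field K] [Algebra k K] (S : Finset (Place k K)) (B : ℤ) : Prop :=
  ∀ x : Fin (n + 1) → K, TermPt r M S x → x ≠ 0 → (∀ f ∈ X, aeval x f = 0) → ht k x ≤ B

theorem part1 (r d : ℕ) : ∃ A : ℕ, ∀ (k : Type) [Field k] [IsAlgClosed k] [CharZero k] (n : ℕ)
    (X : Set (MvPolynomial (Fin (n + 1)) k)), Forms X d →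
      Inequality X r d A (fun _ _ _ v u => OnLine X v u) ∧
      (NoRat X → Inequality X r d A (fun _ _ _ _ _ => False)) := by
  obtain ⟨A, hA⟩ := proj_main r d
  refine ⟨A, ?_⟩
  intro k _ _ _ n X hX
  have key : ∀ (K : Type) [Field K] [Algebra k K] [IsFF k K] (S : Finset (Place k K)) (M : ℕ)
      (v : Fin r → Fin (n + 1) → K) (u : Fin r → K), 0 < M →
      ((r + d - 1).choose d - 1) ^ 2 ≤ M → Units S M u → pt v u ≠ 0 →
      (∀ f ∈ X, aeval (pt v u) f = 0) →
      (OnLine X v u ∧ ∀ G : MvPolynomial (Fin (n + 1)) k, (∀ (L : Type) [Field L] [Algebra k L]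
        (c : Fin r → Fin (n + 1) → L) (l : Fin r → ℕ),
          (∀ f ∈ X, aeval (Pool.Agent.H533R3.SL.cur c l) f = 0) → NC c l →
          aeval (fun i => ∑ j, c j i) G = 0) → aeval (pt v u) G = 0) ∨
      ht k (pt v u) ≤ A * (max (canDeg k K + S.card) 0 + vht k v) := by
    intro K _ _ _ S M v u hM0 hM hu hx0 hx
    rcases hA (k := k) (κ := k) (K := K) X hX le_rfl (fun f _ => (cht_const f).le) v u S hM0 hM
      hu hx0 hx with h1 | h1
    · exact Or.inl h1
    · right
      rw [add_zero] at h1
      exact h1
  refine ⟨fun K _ _ _ S M v u hM0 hM hu hx0 hx => ?_,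
    fun hno K _ _ _ S M v u hM0 hM hu hx0 hx => ?_⟩
  · rcases key K S M v u hM0 hM hu hx0 hx with h1 | h1
    · exact Or.inl h1.1
    · exact Or.inr h1
  · rcases key K S M v u hM0 hM hu hx0 hx with h1 | h1
    · exfalso
      have h2 := h1.2 1 fun L _ _ c l hz hc => absurd hc (noRat_ext hno c l hz)
      rw [map_one] at h2
      exact one_ne_zero h2
    · exact Or.inr h1

theorem result :
    -- (1)
    (∀ r d : ℕ, ∃ A : ℕ, ∀ (k : Type) [Field k] [IsAlgClosed k] [CharZero k] (n : ℕ)
      (X : Set (MvPolynomial (Fin (n + 1)) k)), Forms X d →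
      Inequality X r d A (fun _ _ _ v u => OnLine X v u) ∧
      (NoRat X → Inequality X r d A (fun _ _ _ _ _ => False))) ∧
    -- (2)
    (∀ (k : Type) [Field k] [IsAlgClosed k] [CharZero k] (n d : ℕ)
      (X : Set (MvPolynomial (Fin (n + 1)) k)), Forms X d → List.TFAE [
        -- (a)
        NoRat X,
        -- (b)
        ∀ r, ∃ A M0 : ℕ, ∀ (K : Type) [Field K] [Algebra k K] [IsFF k K] (S : Finset (Place k K))
          (M : ℕ), M0 ≤ M → HeightLe X r M S (A * max (canDeg k K + S.card) 0),
        -- (c)
        ∀ r, ∃ A M0 : ℕ, ∀ (K : Type) [Field K] [Algebra k K] [IsFF k K] (M : ℕ), M0 ≤ M →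
          HeightLe X r M (∅ : Finset (Place k K)) (A * max (canDeg k K) 0),
        -- (d)
        ∀ r, ∃ M : ℕ, 0 < M ∧ ∀ (K : Type) [Field K] [Algebra k K] [IsFF k K], ∃ B : ℕ,
          HeightLe X r M (∅ : Finset (Place k K)) B,
        -- (e)
        ∀ r, ∃ M : ℕ, 0 < M ∧ ∃ (K : Type) (_ : Field K) (_ : Algebra k K) (_ : IsFF k K) (B : ℕ),
          HeightLe X r M (∅ : Finset (Place k K)) B,
        -- (f)
        ∀ r, ∃ M : ℕ, 0 < M ∧ ∀ (K : Type) [Field K] [Algebra k K] [IsFF k K], canDeg k K ≤ 0 →
          HeightLe X r M (∅ : Finset (Place k K)) 0]) := by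
  refine ⟨part1, ?_⟩
  intro k _ _ _ n d X hX
  have : IsFF k (RatFunc k) := isFF_line k
  tfae_have 1 → 2 := by
    intro hno r
    obtain ⟨A, hA⟩ := part1 r d
    refine ⟨A, ((r + d - 1).choose d - 1) ^ 2 + 1, ?_⟩
    intro K _ _ _ S M hM x hx hx0 hxX
    obtain ⟨c, u, hu, hxe⟩ := hx
    have hxe' : x = pt (fun j i => algebraMap k K (c j i)) u := funext hxe
    rcases (hA k n X hX).2 hno K S M (fun j i => algebraMap k K (c j i)) u (by omega) (by omega) hu
      (by rw [← hxe']; exact hx0) (by rw [← hxe']; exact hxX) with h1 | h1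
    · exact absurd h1 id
    · have h2 : vht k (fun j i => algebraMap k K (c j i)) = 0 :=
        ht_of_const (K := K) (fun p : Fin r × Fin (n + 1) => c p.1 p.2)
      rw [h2, add_zero, ← hxe'] at h1
      exact h1
  tfae_have 2 → 3 := by
    intro h r
    obtain ⟨A, M0, hA⟩ := h r
    refine ⟨A, M0, fun K _ _ _ M hM => ?_⟩
    have h1 := hA K ∅ M hM
    rw [Finset.card_empty, Nat.cast_zero, add_zero] at h1
    exact h1
  tfae_have 3 → 4 := by
    intro h r
    obtain ⟨A, M0, hA⟩ := h r
    refine ⟨M0 + 1, Nat.succ_pos _, fun K _ _ _ => ⟨(A * max (canDeg k K) 0).toNat,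
      fun x hx hx0 hxX => ?_⟩⟩
    exact (hA K (M0 + 1) (Nat.le_succ _) x hx hx0 hxX).trans (Int.self_le_toNat _)
  tfae_have 4 → 5 := by
    intro h r
    obtain ⟨M, hM, h1⟩ := h r
    obtain ⟨B, hB⟩ := h1 (RatFunc k)
    exact ⟨M, hM, RatFunc k, inferInstance, inferInstance, inferInstance, B, hB⟩
  tfae_have 5 → 1 := by
    intro h
    by_contra hno
    obtain ⟨r, w, b, h1, h2⟩ := cur_of_not_noRat hno
    obtain ⟨M, hM, K, _, _, _, B, hB⟩ := h r
    have h3 : aeval (fun i => ∑ j, b j i) (1 : MvPolynomial (Fin (n + 1)) k) ≠ 0 := by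
      rw [map_one]
      exact one_ne_zero
    obtain ⟨x, hx1, hx2, hx3, -, hx4⟩ := big_proj (K := K) h1 h2 h3 hM B
    exact absurd (hB x hx1 hx2 hx3) (not_le.2 hx4)
  tfae_have 3 → 6 := by
    intro h r
    obtain ⟨A, M0, hA⟩ := h r
    refine ⟨M0 + 1, Nat.succ_pos _, fun K _ _ _ hK x hx hx0 hxX => ?_⟩
    have h1 := hA K (M0 + 1) (Nat.le_succ _) x hx hx0 hxX
    rw [max_eq_right hK, mul_zero] at h1
    exact h1
  tfae_have 6 → 5 := by
    intro h r
    obtain ⟨M, hM, h1⟩ := h r
    refine ⟨M, hM, RatFunc k, inferInstance, inferInstance, inferInstance, 0,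
      fun x hx hx0 hxX => ?_⟩
    have h2 : canDeg k (RatFunc k) ≤ 0 := by
      rw [Pool.Agent.W619.PQ.canDeg_rational (x := (RatFunc.X : RatFunc k)) RatFunc.adjoin_X]
      norm_num
    exact h1 (RatFunc k) h2 x hx hx0 hxX
  tfae_finish

end Pool.Agent.Results.MP_6f117a_ag.FewTermMaps
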