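import Pool.Agent.Q96.HE.Main

/-!
MP_6f117a_ag, Q1: for all surfaces (and quasi-projective surfaces) over an orbifold pair of log
general type, algebraic hyperbolicity, the absence of nonconstant maps from curves of genus `≤ 1`,
and hyperbolicity (all closed subvarieties are of general type) are equivalent.

`IsOrbPair d a f e Q` (`Pool/Agent/Q186/RU/Orb.lean`): `X` is a complex projective variety of
dimension `d` with generic point `a` and function field `K`, the `f i` are forms of degree `e`, the
rational map `(f 0 : … : f n)` on `X` is generically finite onto its image (any subvariety of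
projective `n`-space), `Q` is a polynomial with `Q (1, f 1 / f 0, …, f n / f 0) ≠ 0` on `X`, and `X`
is of log general type for the boundary consisting of the prime divisors (on all models) where some
`f i / f 0` is not a unit (the toric boundary) or where `Q (1, f 1 / f 0, …)` vanishes to the first
order. `IsCover a b g e'` (`Pool/Agent/Q271/RC/Defs.lean`): `Y` is a projective variety with generic
point `b` and function field `K'`, and the forms `g 0, …, g N` define a generically finite dominant
rational map from `Y` to `X`.

`U = Y - D`, where the closed subset `D` of projective space is given by any set of forms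
(`D = {1}` is the empty set: `U = Y`). `CentreIn D v z`: the centre of the place `z` lies in `D`.
`OrbOff m Q b D h` (`Pool/Agent/Q96/OS/Defs.lean`): for all arcs in `Y` with centre in `U`, not
contained in the zeros of the forms `h i = f i (g)`, either two of the orders of the `h i` differ by
at least `m` (contact of order at least `m` with the toric boundary), or these orders are all equal
and the order of `Q (1, h 1 / h 0, …)` is not one (no contact with the toric boundary, and no contact
of order one with `Q = 0`).

`Pool/Agent/Q96/HE/Defs.lean`: `IsMap b D v`: `v` is a nonconstant map to `Y` from the smooth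
projective curve `C` with function field `L`, and its image is not contained in `D`. `pht ℂ v` is
the degree of this map, and `eul D v = 2 g - 2 + s`, where `g` is the genus of `C` and `s` is the
number of the points of `C` which are mapped to `D` (for `U = Y` this is `2 g - 2`).
`AlgHyperbolic b D`: there is `A` with `pht ℂ v ≤ A * eul D v` for all these maps. `NoLowMaps b D`:
there are no such maps with `2 g - 2 + s ≤ 0` (for `U = Y`: all maps from curves of genus `≤ 1` to
`Y` are constant; this holds if `Y` is groupless). `Hyperbolic b D`: all closed subvarieties of `U`
of positive dimension are of log general type (for `U = Y`: of general type). `lowCurves b D`: the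
set of the closed curves in `U` with `2 g - 2 + s ≤ 0` (for `U = Y`: the curves of geometric
genus `≤ 1`), each given by the set of the forms which vanish on it.

Theorem: let `X, f, Q` be an orbifold pair of log general type of dimension `1` or `2`. There is a
number `m` such that for ALL `U = Y - D` as above, the following hold. (1) `U` is of log general type.
(2) `U` is algebraically hyperbolic if and only if there are no maps with `2 g - 2 + s ≤ 0`, if and
only if all closed subvarieties of `U` are of log general type. (3) `U` contains only finitely many
closed curves with `2 g - 2 + s ≤ 0`, and there is a number `A` such that all maps from curves to `Y`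
with image not in `D` satisfy the inequality `degree ≤ A (2 g - 2 + s)`, except for those with image
equal to one of these finitely many curves.
-/

set_option autoImplicit false

namespace Pool.Agent.Results.MP_6f117a_ag.OrbifoldSurfaceEquivalence

open MvPolynomial FF Pool.Agent.W603.LV Pool.Agent.W603.PV Pool.Agent.Q271.RC Pool.Agent.Q96.LS
open Pool.Agent.Q186.RU Pool.Agent.Q96.OS Pool.Agent.Q96.HE
open Pool.Agent.W602.GT (LogGeneralType)

/-- See the explanation at the beginning of the file. -/
theorem result {N n d : ℕ} (hd : 0 < d) (hd2 : d ≤ 2) (K : Type) [Field K] [Algebra ℂ K]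
    (a : Fin (N + 1) → K) (f : Fin (n + 1) → MvPolynomial (Fin (N + 1)) ℂ) (e : ℕ)
    (Q : MvPolynomial (Fin (n + 1)) ℂ) (hX : IsOrbPair d a f e Q) :
    ∃ m : ℕ, ∀ (N' : ℕ) (K' : Type) [Field K'] [Algebra ℂ K'] [Algebra K K']
      [IsScalarTower ℂ K K'] (b : Fin (N' + 1) → K')
      (g : Fin (N + 1) → MvPolynomial (Fin (N' + 1)) ℂ) (e' : ℕ), IsCover a b g e' →
      ∀ D : Set (MvPolynomial (Fin (N' + 1)) ℂ), (∀ F ∈ D, ∃ E, F.IsHomogeneous E) →
      OrbOff m Q b D (fun i => bind₁ g (f i)) →
      LogGeneralType ℂ K' d (CentreIn D b) ∧
      ((AlgHyperbolic b D ↔ NoLowMaps b D) ∧ (NoLowMaps b D ↔ Hyperbolic b D)) ∧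
      (lowCurves b D).Finite ∧
      ∃ A : ℕ, ∀ (L : Type) [Field L] [Algebra ℂ L] [IsFF ℂ L] (v : Fin (N' + 1) → L),
        IsMap b D v → pht ℂ v ≤ A * eul D v ∨ vanForms v ∈ lowCurves b D :=
  Pool.Agent.Q96.HE.main hd hd2 hX

end Pool.Agent.Results.MP_6f117a_ag.OrbifoldSurfaceEquivalence
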